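import Mathlib
import Pool.Agent.Results.MP_e6529f_an.BasicSetNoBoxDimension

/-!
# Basic sets of diffeomorphisms of flat manifolds of arbitrary dimension: definitions
-/

set_option autoImplicit false

namespace Pool.Agent.Y912.BS

open Pool.Agent.Results.MP_e6529f_an.BasicSetNoBoxDimension
open Filter Topology Set
open scoped ContDiff

/-- The Euclidean space `(ℝ⁴ × ℝ²)^k × ℝ^m = ℝ^(6k+m)`. -/
def CoverOf (k m : ℕ) : Type := WithLp 2 (PiLp 2 (fun _ : Fin k => Cover) × EuclideanSpace ℝ (Fin m))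

/-- Its Euclidean norm. -/
noncomputable instance (k m : ℕ) : NormedAddCommGroup (CoverOf k m) :=
  inferInstanceAs (NormedAddCommGroup (WithLp 2 (PiLp 2 (fun _ : Fin k => Cover) × EuclideanSpace ℝ (Fin m))))

/-- Its structure of a real vector space. -/
noncomputable instance (k m : ℕ) : NormedSpace ℝ (CoverOf k m) :=
  inferInstanceAs (NormedSpace ℝ (WithLp 2 (PiLp 2 (fun _ : Fin k => Cover) × EuclideanSpace ℝ (Fin m))))

/-- The flat manifold `(ℝ⁴ × ℝ²/(ℤv + ℤw))^k × ℝ^m` of dimension `6k + m`. -/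
def Man (k m : ℕ) (v w : Plane) : Type :=
  WithLp 2 (PiLp 2 (fun _ : Fin k => Mfd v w) × EuclideanSpace ℝ (Fin m))

/-- Its Riemannian distance, the `ℓ²` product distance. -/
noncomputable instance (k m : ℕ) (v w : Plane) : PseudoMetricSpace (Man k m v w) :=
  inferInstanceAs (PseudoMetricSpace (WithLp 2 (PiLp 2 (fun _ : Fin k => Mfd v w) × EuclideanSpace ℝ (Fin m))))

/-- the point with the coordinates `x` and `y` -/
def mk {k m : ℕ} {v w : Plane} (x : Fin k → Mfd v w) (y : EuclideanSpace ℝ (Fin m)) : Man k m v w :=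
  WithLp.toLp 2 (WithLp.toLp 2 x, y)

/-- The covering map, a local isometry. -/
noncomputable def projOf (k m : ℕ) (v w : Plane) (q : CoverOf k m) : Man k m v w :=
  mk (fun i => proj v w (WithLp.fst (p := 2) (α := PiLp 2 (fun _ : Fin k => Cover))
    (β := EuclideanSpace ℝ (Fin m)) q i))
    (WithLp.snd (p := 2) (α := PiLp 2 (fun _ : Fin k => Cover)) (β := EuclideanSpace ℝ (Fin m)) q)

section

variable {V M : Type} [NormedAddCommGroup V] [NormedSpace ℝ V]

/-- `F` is a `C^∞` lift of `f : M → M` to the universal cover `π : V → M` (a local isometry). Then `f` is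
`C^∞`, and its derivative at `π q`, in the flat coordinates, is the derivative of `F` at `q`. -/
def IsLift (π : V → M) (F : V → V) (f : M → M) : Prop := ContDiff ℝ ∞ F ∧ ∀ q, f (π q) = π (F q)

/-- `f` is a `C^∞` diffeomorphism of `M`: `f` and `f⁻¹` have `C^∞` lifts. -/
def IsDiffeo (π : V → M) (f : M ≃ M) : Prop := (∃ F, IsLift π F f) ∧ ∃ G, IsLift π G f.symm

/-- `L(E^s) = E^s` and `L(E^u) = E^u`, and `L` contracts `E^s` by `1/2` and expands `E^u` by `2`. -/
def IsHypMap (L : V →L[ℝ] V) (Es Eu : Submodule ℝ V) : Prop :=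
  L '' (Es : Set V) = Es ∧ L '' (Eu : Set V) = Eu ∧
    (∀ x ∈ Es, ‖L x‖ ≤ 1 / 2 * ‖x‖) ∧ ∀ x ∈ Eu, 2 * ‖x‖ ≤ ‖L x‖

/-- `Λ` is hyperbolic for `f`, in a strong form: there are subspaces `E^s ⊕ E^u = V`, the same at all
points of `Λ`, invariant under `Df` on `Λ`, such that on `Λ` already one step of `Df` contracts `E^s` by
`1/2` and expands `E^u` by `2`. -/
def IsHyp (π : V → M) (f : M ≃ M) (Λ : Set M) : Prop :=
  ∃ F, IsLift π F f ∧ ∃ Es Eu : Submodule ℝ V, IsCompl Es Eu ∧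
    ∀ q, π q ∈ Λ → IsHypMap (fderiv ℝ F q) Es Eu

/-- `Λ` is a basic set of `f`. -/
def IsBasic [TopologicalSpace M] (π : V → M) (f : M ≃ M) (Λ : Set M) : Prop :=
  Λ.Nonempty ∧ IsCompact Λ ∧ f '' Λ = Λ ∧ IsHyp π f Λ ∧ IsLocallyMaximal f Λ ∧ IsTransitiveOn f Λ

end

/-- The local unstable manifold of size `ε` of `x`:
`W^u_ε(x) = {y : dist(f⁻ⁿ(y), f⁻ⁿ(x)) ≤ ε for all n ≥ 0}`. -/
def unstable {M : Type} [PseudoMetricSpace M] (f : M ≃ M) (ε : ℝ) (x : M) : Set M :=
  {y | ∀ n : ℕ, dist (f.symm^[n] y) (f.symm^[n] x) ≤ ε}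

end Pool.Agent.Y912.BS
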