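import Mathlib
import Pool.Agent.Y912.BS.Defs

/-!
# Hyperbolicity of products
-/

set_option autoImplicit false

namespace Pool.Agent.Y912.BS

open Filter Topology Set
open scoped ContDiff

variable {k : ℕ} {V W Z : Type} [NormedAddCommGroup V] [NormedSpace ℝ V] [NormedAddCommGroup W]
  [NormedSpace ℝ W] [NormedAddCommGroup Z] [NormedSpace ℝ Z]

lemma ext_abs (P : Fin k → V →L[ℝ] W) (Q : V →L[ℝ] Z)
    (hn : ∀ w : V, ‖w‖ ^ 2 = ∑ i, ‖P i w‖ ^ 2 + ‖Q w‖ ^ 2) {x y : V} (h : ∀ i, P i x = P i y)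
    (h' : Q x = Q y) : x = y := by
  have h0 : ‖x - y‖ ^ 2 = 0 := by
    rw [hn]
    simp [map_sub, h, h']
  have h1 : ‖x - y‖ = 0 := by
    rcases pow_eq_zero_iff (two_ne_zero) |>.1 h0 with h
    exact h
  exact sub_eq_zero.1 (norm_eq_zero.1 h1)

lemma fderiv_P (P : V →L[ℝ] W) {G : V → V} {F : W → W} (hG : Differentiable ℝ G)
    (hF : Differentiable ℝ F) (hPG : ∀ q, P (G q) = F (P q)) (q v : V) :
    P (fderiv ℝ G q v) = fderiv ℝ F (P q) (P v) := by
  have hl : HasFDerivAt (fun x => P (G x)) (P.comp (fderiv ℝ G q)) q := P.hasFDerivAt.comp q (hG q).hasFDerivAt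
  have hr : HasFDerivAt (fun x => F (P x)) ((fderiv ℝ F (P q)).comp P) q :=
    HasFDerivAt.comp q (hF (P q)).hasFDerivAt P.hasFDerivAt
  have hfun : (fun x => P (G x)) = fun x => F (P x) := funext hPG
  rw [hfun] at hl
  exact congrArg (fun L => L v) (hl.unique hr)

lemma fderiv_Q (Q : V →L[ℝ] Z) {G : V → V} (hG : Differentiable ℝ G) {c : ℝ}
    (hQG : ∀ q, Q (G q) = c • Q q) (q v : V) : Q (fderiv ℝ G q v) = c • Q v := by
  have hl : HasFDerivAt (fun x => Q (G x)) (Q.comp (fderiv ℝ G q)) q :=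
    Q.hasFDerivAt.comp q (hG q).hasFDerivAt
  have hr : HasFDerivAt (fun x => c • Q x) (c • Q) q := Q.hasFDerivAt.const_smul c
  have hfun : (fun x => Q (G x)) = fun x => c • Q x := funext hQG
  rw [hfun] at hl
  exact congrArg (fun L => L v) (hl.unique hr)

/-- stable subspace of the product -/
def EsA (P : Fin k → V →L[ℝ] W) (Q : V →L[ℝ] Z) (E : Submodule ℝ W) : Submodule ℝ V where
  carrier := {x | (∀ i, P i x ∈ E) ∧ Q x = 0}
  add_mem' := by
    rintro a b ⟨h1, h2⟩ ⟨h3, h4⟩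
    refine ⟨fun i => ?_, ?_⟩
    · rw [map_add]
      exact E.add_mem (h1 i) (h3 i)
    · rw [map_add, h2, h4, add_zero]
  zero_mem' := ⟨fun i => by rw [map_zero]; exact E.zero_mem, map_zero _⟩
  smul_mem' := by
    rintro c a ⟨h1, h2⟩
    refine ⟨fun i => ?_, ?_⟩
    · rw [map_smul]
      exact E.smul_mem c (h1 i)
    · rw [map_smul, h2, smul_zero]

/-- unstable subspace of the product -/
def EuA (P : Fin k → V →L[ℝ] W) (E : Submodule ℝ W) : Submodule ℝ V where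
  carrier := {x | ∀ i, P i x ∈ E}
  add_mem' := by
    intro a b h1 h3 i
    rw [map_add]
    exact E.add_mem (h1 i) (h3 i)
  zero_mem' := fun i => by rw [map_zero]; exact E.zero_mem
  smul_mem' := by
    intro c a h1 i
    rw [map_smul]
    exact E.smul_mem c (h1 i)

lemma compl_abs (P : Fin k → V →L[ℝ] W) (Q : V →L[ℝ] Z) (mkV : (Fin k → W) → Z → V)
    (hPm : ∀ x y i, P i (mkV x y) = x i) (hQm : ∀ x y, Q (mkV x y) = y)
    (hn : ∀ w : V, ‖w‖ ^ 2 = ∑ i, ‖P i w‖ ^ 2 + ‖Q w‖ ^ 2) {Es Eu : Submodule ℝ W} (h : IsCompl Es Eu) :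
    IsCompl (EsA P Q Es) (EuA P Eu) := by
  constructor
  · rw [Submodule.disjoint_def]
    rintro x ⟨h1, h2⟩ h3
    refine ext_abs P Q hn (fun i => ?_) (by rw [h2, map_zero])
    rw [map_zero]
    exact (Submodule.disjoint_def.1 h.disjoint) _ (h1 i) (h3 i)
  · rw [codisjoint_iff, eq_top_iff]
    intro x _
    have : ∀ i, ∃ a ∈ Es, ∃ b ∈ Eu, a + b = P i x := fun i =>
      Submodule.mem_sup.1 (by rw [h.sup_eq_top]; exact Submodule.mem_top)
    choose a ha b hb hab using this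
    refine Submodule.mem_sup.2 ⟨mkV a 0, ⟨fun i => by rw [hPm]; exact ha i, hQm _ _⟩, mkV b (Q x), fun i => by
      rw [hPm]; exact hb i, ?_⟩
    refine ext_abs P Q hn (fun i => ?_) ?_
    · rw [map_add, hPm, hPm, hab]
    · rw [map_add, hQm, hQm, zero_add]

lemma hyp_abs (P : Fin k → V →L[ℝ] W) (Q : V →L[ℝ] Z) (mkV : (Fin k → W) → Z → V)
    (hPm : ∀ x y i, P i (mkV x y) = x i) (hQm : ∀ x y, Q (mkV x y) = y)
    (hn : ∀ w : V, ‖w‖ ^ 2 = ∑ i, ‖P i w‖ ^ 2 + ‖Q w‖ ^ 2) {G : V → V} {F : W → W}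
    (hG : Differentiable ℝ G) (hF : Differentiable ℝ F) (hPG : ∀ i q, P i (G q) = F (P i q))
    (hQG : ∀ q, Q (G q) = (2 : ℝ) • Q q) {Es Eu : Submodule ℝ W} (q : V)
    (h : ∀ i, IsHypMap (fderiv ℝ F (P i q)) Es Eu) :
    IsHypMap (fderiv ℝ G q) (EsA P Q Es) (EuA P Eu) := by
  have hP : ∀ i v, P i (fderiv ℝ G q v) = fderiv ℝ F (P i q) (P i v) := fun i v =>
    fderiv_P (P i) hG hF (hPG i) q v
  have hQ : ∀ v, Q (fderiv ℝ G q v) = (2 : ℝ) • Q v := fun v => fderiv_Q Q hG hQG q v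
  refine ⟨?_, ?_, ?_, ?_⟩
  · ext y
    constructor
    · rintro ⟨x, ⟨h1, h2⟩, rfl⟩
      refine ⟨fun i => ?_, ?_⟩
      · rw [hP]
        have : fderiv ℝ F (P i q) (P i x) ∈ (fderiv ℝ F (P i q)) '' (Es : Set W) := ⟨_, h1 i, rfl⟩
        rw [(h i).1] at this
        exact this
      · rw [hQ, h2, smul_zero]
    · rintro ⟨h1, h2⟩
      have : ∀ i, ∃ x ∈ Es, fderiv ℝ F (P i q) x = P i y := fun i => by
        have h3 : P i y ∈ (Es : Set W) := h1 i
        rw [← (h i).1] at h3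
        exact h3
      choose x hx hxy using this
      refine ⟨mkV x 0, ⟨fun i => by rw [hPm]; exact hx i, hQm _ _⟩, ?_⟩
      refine ext_abs P Q hn (fun i => ?_) ?_
      · rw [hP, hPm, hxy]
      · rw [hQ, hQm, h2, smul_zero]
  · ext y
    constructor
    · rintro ⟨x, h1, rfl⟩
      intro i
      rw [hP]
      have : fderiv ℝ F (P i q) (P i x) ∈ (fderiv ℝ F (P i q)) '' (Eu : Set W) := ⟨_, h1 i, rfl⟩
      rw [(h i).2.1] at this
      exact this
    · intro h1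
      have : ∀ i, ∃ x ∈ Eu, fderiv ℝ F (P i q) x = P i y := fun i => by
        have h3 : P i y ∈ (Eu : Set W) := h1 i
        rw [← (h i).2.1] at h3
        exact h3
      choose x hx hxy using this
      refine ⟨mkV x ((1 / 2 : ℝ) • Q y), fun i => by rw [hPm]; exact hx i, ?_⟩
      refine ext_abs P Q hn (fun i => ?_) ?_
      · rw [hP, hPm, hxy]
      · rw [hQ, hQm, smul_smul]
        norm_num
  · rintro x ⟨h1, h2⟩
    apply (sq_le_sq₀ (norm_nonneg _) (by positivity)).1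
    rw [mul_pow, hn x, hn (fderiv ℝ G q x), mul_add, Finset.mul_sum, hQ, h2, smul_zero, norm_zero]
    refine add_le_add (Finset.sum_le_sum fun i _ => ?_) (by norm_num)
    rw [hP, ← mul_pow]
    exact pow_le_pow_left₀ (norm_nonneg _) ((h i).2.2.1 _ (h1 i)) 2
  · intro x h1
    apply (sq_le_sq₀ (by positivity) (norm_nonneg _)).1
    rw [mul_pow, hn x, hn (fderiv ℝ G q x), mul_add, Finset.mul_sum, hQ]
    refine add_le_add (Finset.sum_le_sum fun i _ => ?_) ?_
    · rw [hP, ← mul_pow]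
      exact pow_le_pow_left₀ (by positivity) ((h i).2.2.2 _ (h1 i)) 2
    · rw [norm_smul, mul_pow, Real.norm_eq_abs, abs_two]

end Pool.Agent.Y912.BS
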