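import Mathlib
import Pool.Agent.Y912.BS.Hyp
import Pool.Agent.Y912.BD.Cov

/-!
# Box dimensions of subsets of powers
-/

set_option autoImplicit false

namespace Pool.Agent.Y912.BS

open Pool.Agent.Results.MP_e6529f_an.BasicSetNoBoxDimension
open Pool.Agent.Y912.BD
open Filter Topology Set H342R3.SC
open H342R3.SA (S al1 be1 ep1 ep1_pos al1_lt_be1 be1_pos fac_tendsto)

section gen

variable {X P : Type} [PseudoMetricSpace X] [PseudoMetricSpace P]

lemma covs_mono {E E' : Set X} (h : E ⊆ E') {δ : ℝ} {n : ℕ} (hn : n ∈ covs E' δ) : n ∈ covs E δ := by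
  obtain ⟨U, h1, h2⟩ := hn
  exact ⟨U, h1, h.trans h2⟩

lemma exists_sep' {E : Set X} {δ : ℝ} (hδ : 0 < δ) (hE : (covs E δ).Nonempty) :
    ∃ S : Finset X, (∀ x ∈ S, x ∈ E) ∧ (∀ x ∈ S, ∀ y ∈ S, dist x y ≤ δ → x = y) ∧
      ∀ z ∈ E, ∃ x ∈ S, dist z x ≤ δ := by
  classical
  obtain ⟨n, U, hU, hcov⟩ := hE
  set A : Set ℕ := {c | ∃ S : Finset X, (∀ x ∈ S, x ∈ E) ∧
    (∀ x ∈ S, ∀ y ∈ S, dist x y ≤ δ → x = y) ∧ S.card = c} with hA
  have hne : A.Nonempty := ⟨0, ∅, by simp, by simp, by simp⟩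
  have hbd : BddAbove A := by
    refine ⟨n, ?_⟩
    rintro c ⟨S, h1, h2, rfl⟩
    have : ∀ x : S, ∃ l, (x : X) ∈ U l := fun x => mem_iUnion.1 (hcov (h1 x x.2))
    choose g hg using this
    have hinj : Function.Injective g := by
      intro x y hxy
      apply Subtype.ext
      refine h2 x x.2 y y.2 (hU (g x) _ (hg x) _ ?_)
      rw [hxy]
      exact hg y
    have := Fintype.card_le_of_injective g hinj
    simpa using this
  obtain ⟨S, h1, h2, h3⟩ := Nat.sSup_mem hne hbd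
  refine ⟨S, h1, h2, ?_⟩
  intro z hz
  by_contra hcon
  push Not at hcon
  have hzS : z ∉ S := fun h => by
    have := hcon z h
    rw [dist_self] at this
    linarith
  have hmem : S.card + 1 ∈ A := by
    refine ⟨insert z S, ?_, ?_, Finset.card_insert_of_notMem hzS⟩
    · intro x hx
      rcases Finset.mem_insert.1 hx with rfl | hx
      · exact hz
      · exact h1 x hx
    · intro x hx y hy hxy
      rcases Finset.mem_insert.1 hx with hx' | hx' <;> rcases Finset.mem_insert.1 hy with hy' | hy'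
      · rw [hx', hy']
      · rw [hx'] at hxy
        exact absurd hxy (not_le.2 (hcon y hy'))
      · rw [hy', dist_comm] at hxy
        exact absurd hxy (not_le.2 (hcon x hx'))
      · exact h2 x hx' y hy' hxy
  have := le_csSup hbd hmem
  omega

lemma prod_lower {k : ℕ} (ι : (Fin k → X) → P) (E : Fin k → Set X) {δ : ℝ} (hδ : 0 < δ)
    (hE : ∀ i, (covs (E i) δ).Nonempty)
    (h1 : ∀ (x y : Fin k → X) (i : Fin k), dist (x i) (y i) ≤ dist (ι x) (ι y)) {Z : Set P}
    (hZ : ∀ x : Fin k → X, (∀ i, x i ∈ E i) → ι x ∈ Z) {n : ℕ} (hn : n ∈ covs Z δ) :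
    ∏ i, coveringNumber (E i) (2 * δ) ≤ n := by
  have := fun i => exists_sep' hδ (hE i)
  choose S hS1 hS2 hS3 using this
  obtain ⟨U, hU, hcov⟩ := hn
  have : ∀ x : (i : Fin k) → S i, ∃ l, ι (fun i => (x i : X)) ∈ U l := fun x =>
    mem_iUnion.1 (hcov (hZ _ fun i => hS1 i _ (x i).2))
  choose g hg using this
  have hinj : Function.Injective g := by
    intro x y hxy
    funext i
    apply Subtype.ext
    refine hS2 i _ (x i).2 _ (y i).2 ((h1 (fun i => (x i : X)) (fun i => (y i : X)) i).trans ?_)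
    refine hU (g x) _ (hg x) _ ?_
    rw [hxy]
    exact hg y
  have h4 := Fintype.card_le_of_injective g hinj
  rw [Fintype.card_pi] at h4
  simp only [Fintype.card_coe, Fintype.card_fin] at h4
  exact (Finset.prod_le_prod' fun i _ => cov_two_le (hS3 i)).trans h4

end gen

/-- the cylinder sets -/
def cyl (s t : ℕ → S) (N : ℕ) : Set MT := {y | ∃ σ : ℕ → S, (∀ l < N, σ l = s l) ∧ y = Th (σ, t)}

lemma cyl_sub (s t : ℕ → S) (N : ℕ) : cyl s t N ⊆ Lam := by
  rintro _ ⟨σ, _, rfl⟩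
  exact ⟨_, rfl⟩

lemma cov_cyl (s t : ℕ → S) (N : ℕ) {δ : ℝ} (hδ : 0 < δ) : (covs (cyl s t N) δ).Nonempty := by
  obtain ⟨n, hn⟩ := cov_nonempty Lam_compact hδ
  exact ⟨n, covs_mono (cyl_sub s t N) hn⟩

lemma ratio_cyl (N : ℕ) : ∀ᶠ K : ℕ in atTop, ∀ s t : ℕ → S,
    be1 ≤ ratioZ (cyl s t N) ((1/8)^(3 * K.factorial)/(4 * LL^N)) := by
  have hL := LL_ge
  have hLN : 1 ≤ LL^N := one_le_pow₀ hL
  have hC : 4 ≤ 4 * LL^N := by linarith
  obtain ⟨Q, hQ⟩ := exists_nat_ge ((be1 * Real.log (4 * LL^N) + Real.log 2) / ep1)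
  filter_upwards [eventually_ge_atTop (Q + 2)] with K hK s t
  apply lower_ratioZ hC (by omega) (lowerZ (cyl_sub s t N) (s := s) (t := t) (N := N)
    (fun s' hs' => ⟨s', hs', rfl⟩) (by omega))
  rw [div_le_iff₀ ep1_pos] at hQ
  refine hQ.trans ?_
  rw [mul_comm]
  apply mul_le_mul_of_nonneg_left _ ep1_pos.le
  have : Q ≤ K := by omega
  exact_mod_cast this

theorem dimsZ {P : Type} [PseudoMetricSpace P] {k : ℕ} (ι : (Fin k → MT) → P) {C : ℝ}
    (hC : 0 < C) (h1 : ∀ (x y : Fin k → MT) (i : Fin k), dist (x i) (y i) ≤ dist (ι x) (ι y))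
    (h2 : ∀ (δ : ℝ), 0 < δ → ∀ x y : Fin k → MT, (∀ i, dist (x i) (y i) ≤ δ) → dist (ι x) (ι y) ≤ C * δ)
    {Z : Set P} (hZ : Z ⊆ pw ι Lam) {s t : Fin k → ℕ → S} {N : ℕ}
    (hcyl : ∀ x : Fin k → MT, (∀ i, x i ∈ cyl (s i) (t i) N) → ι x ∈ Z) {a b : ℝ} (ha : al1 < a) (hb : b < be1) :
    lowerBoxDim Z ≤ ((k * a : ℝ) : EReal) ∧ ((k * b : ℝ) : EReal) ≤ upperBoxDim Z := by
  have hne : Z.Nonempty := ⟨_, hcyl (fun i => Th (s i, t i)) fun i => ⟨s i, fun _ _ => rfl, rfl⟩⟩
  have hcov : ∀ δ : ℝ, 0 < δ → coveringNumber Lam δ ^ k ∈ covs Z (C * δ) := fun δ hδ =>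
    covs_mono hZ (pw_mem ι (h2 δ hδ) (cov_mem (cov_nonempty Lam_compact hδ)))
  constructor
  · have hlow : lowerBoxDim Lam ≤ (al1 : EReal) :=
      liminf_le_of_frequently_le' (freq_lowT.mono (fun δ h => by exact_mod_cast h))
    refine BD.lower (a := (al1 + a) / 2) hC
      (fun δ hδ => ⟨one_le_of_mem hne (cov_mem ⟨_, hcov δ hδ⟩), cov_le (hcov δ hδ)⟩) (by linarith) ?_
    refine lt_of_le_of_lt hlow ?_
    rw [EReal.coe_lt_coe_iff]
    linarith
  · have hL := LL_ge
    have hLN : 0 < LL^N := by positivity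
    have ht : Tendsto (fun K : ℕ => (1/(4 * LL^N)) * (1/8:ℝ)^(3 * K.factorial)) atTop (𝓝[>] 0) :=
      fac_tendsto (f := fun K => K.factorial) (fun K _ => Nat.self_le_factorial K) (by positivity)
    have ht2 : Tendsto (fun K : ℕ => (1/2) * ((1/(4 * LL^N)) * (1/8:ℝ)^(3 * K.factorial))) atTop (𝓝[>] 0) :=
      (BD.tendsto_mul (C := 1/2) (by norm_num)).comp ht
    refine le_limsup_of_frequently_le' (ht2.frequently (Eventually.frequently ?_))
    filter_upwards [ratio_cyl N, (tendsto_t.comp ht).eventually_ge_atTop (max 1 (b * Real.log 2 / (be1 - b))),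
      ht.eventually (self_mem_nhdsWithin)] with K hK hT hpos
    set δ : ℝ := (1/(4 * LL^N)) * (1/8:ℝ)^(3 * K.factorial) with hδ
    have hδ0 : 0 < δ := hpos
    have hδ' : (1/8)^(3 * K.factorial)/(4 * LL^N) = δ := by rw [hδ]; ring
    rw [hδ'] at hK
    have hT' : max 1 (b * Real.log 2 / (be1 - b)) ≤ -Real.log δ := hT
    set u : ℝ := -Real.log δ with hu
    have hT1 : 1 ≤ u := (le_max_left _ _).trans hT'
    have hT2 : b * Real.log 2 / (be1 - b) ≤ u := (le_max_right _ _).trans hT'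
    have hd : 0 < be1 - b := sub_pos.2 hb
    rw [div_le_iff₀ hd] at hT2
    have hlc : 0 < Real.log 2 := Real.log_pos one_lt_two
    have hu0 : 0 < u := by linarith
    have hu1 : 0 < u + Real.log 2 := by linarith
    have hlog : -Real.log (1 / 2 * δ) = u + Real.log 2 := by
      rw [Real.log_mul (by norm_num) hδ0.ne', hu, one_div, Real.log_inv]
      ring
    show ((k * b : ℝ) : EReal) ≤ ((Real.log (coveringNumber Z (1 / 2 * δ)) / -Real.log (1 / 2 * δ) : ℝ) : EReal)
    rw [hlog, EReal.coe_le_coe_iff, le_div_iff₀ hu1]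
    have hcZ : (covs Z (1 / 2 * δ)).Nonempty := by
      have h3 := hcov (C⁻¹ * (1 / 2 * δ)) (by positivity)
      rw [mul_inv_cancel_left₀ hC.ne'] at h3
      exact ⟨_, h3⟩
    have h5 := prod_lower ι (fun i => cyl (s i) (t i) N) (δ := 1 / 2 * δ) (by positivity)
      (fun i => cov_cyl _ _ _ (by positivity)) h1 hcyl (cov_mem hcZ)
    have he : 2 * (1 / 2 * δ) = δ := by ring
    rw [he] at h5
    have h6 : ∀ i : Fin k, be1 * u ≤ Real.log (coveringNumber (cyl (s i) (t i) N) δ) := by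
      intro i
      have := hK (s i) (t i)
      unfold ratioZ at this
      rw [le_div_iff₀ hu0] at this
      exact this
    have h7 : ∀ i : Fin k, 1 ≤ coveringNumber (cyl (s i) (t i) N) δ := fun i =>
      one_le_of_mem (E := cyl (s i) (t i) N) ⟨Th (s i, t i), s i, fun _ _ => rfl, rfl⟩
        (cov_mem (cov_cyl _ _ _ hδ0))
    have h8 : (k : ℝ) * (be1 * u) ≤ Real.log (coveringNumber Z (1 / 2 * δ)) := by
      calc (k : ℝ) * (be1 * u) = ∑ _i : Fin k, be1 * u := by simp
        _ ≤ ∑ i : Fin k, Real.log (coveringNumber (cyl (s i) (t i) N) δ) := Finset.sum_le_sum fun i _ => h6 i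
        _ = Real.log (∏ i : Fin k, (coveringNumber (cyl (s i) (t i) N) δ : ℝ)) := by
            rw [Real.log_prod]
            intro i _
            have := h7 i
            positivity
        _ ≤ Real.log (coveringNumber Z (1 / 2 * δ)) := by
            apply Real.log_le_log
            · apply Finset.prod_pos
              intro i _
              have := h7 i
              positivity
            · have : ((∏ i, coveringNumber (cyl (s i) (t i) N) δ : ℕ) : ℝ) ≤
                  (coveringNumber Z (1 / 2 * δ) : ℝ) := by exact_mod_cast h5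
              rw [Nat.cast_prod] at this
              exact this
    have hk : (0 : ℝ) ≤ k := Nat.cast_nonneg k
    refine le_trans ?_ h8
    calc (k : ℝ) * b * (u + Real.log 2) = k * (b * (u + Real.log 2)) := by ring
      _ ≤ k * (be1 * u) := mul_le_mul_of_nonneg_left (by nlinarith) hk

end Pool.Agent.Y912.BS
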