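import Mathlib
import Pool.Agent.Y912.BS.Dim

/-!
# The product basic sets
-/

set_option autoImplicit false

namespace Pool.Agent.Y912.BS

open Pool.Agent.Results.MP_e6529f_an.BasicSetNoBoxDimension
open Pool.Agent.Y912.BD (pw)
open Filter Topology Set H342R3.SC
open H342R3.SA (S al1 be1 ep1 ep1_pos al1_lt_be1 be1_pos sh)
open scoped ContDiff

/-! ### the manifold -/

/-- the manifold with the parameters of the starting result -/
abbrev MM (k m : ℕ) := Man k m v1 v2

variable {k m : ℕ}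

/-- the coordinates in the first factors -/
def co (x : MM k m) (i : Fin k) : MT := WithLp.fst (p := 2) (α := PiLp 2 (fun _ : Fin k => MT))
  (β := EuclideanSpace ℝ (Fin m)) x i

/-- the coordinate in `ℝ^m` -/
def eu (x : MM k m) : EuclideanSpace ℝ (Fin m) := WithLp.snd (p := 2) (α := PiLp 2 (fun _ : Fin k => MT))
  (β := EuclideanSpace ℝ (Fin m)) x

@[simp] lemma co_mk (x : Fin k → MT) (y : EuclideanSpace ℝ (Fin m)) (i : Fin k) : co (mk x y : MM k m) i = x i := rfl
@[simp] lemma eu_mk (x : Fin k → MT) (y : EuclideanSpace ℝ (Fin m)) : eu (mk x y : MM k m) = y := rfl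

lemma mk_co_eu (x : MM k m) : (mk (co x) (eu x) : MM k m) = x := rfl

lemma continuous_mk0 : Continuous (fun x : Fin k → MT => (mk x 0 : MM k m)) :=
  (WithLp.prod_continuous_toLp 2 _ _).comp
    ((PiLp.continuous_toLp 2 (fun _ : Fin k => MT)).prodMk continuous_const)

lemma continuous_co (i : Fin k) : Continuous (fun x : MM k m => co x i) :=
  (PiLp.continuous_apply 2 (fun _ : Fin k => MT) i).comp
    (WithLp.continuous_fst 2 (PiLp 2 (fun _ : Fin k => MT)) (EuclideanSpace ℝ (Fin m)))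

lemma continuous_eu : Continuous (fun x : MM k m => eu x) :=
  WithLp.continuous_snd 2 (PiLp 2 (fun _ : Fin k => MT)) (EuclideanSpace ℝ (Fin m))

lemma dist_ge (x y : Fin k → MT) (i : Fin k) :
    dist (x i) (y i) ≤ dist (mk x 0 : MM k m) (mk y 0) := by
  have h1 := (WithLp.prod_lipschitzWith_ofLp 2 (PiLp 2 (fun _ : Fin k => MT)) (EuclideanSpace ℝ (Fin m))).dist_le_mul
    (WithLp.toLp 2 (WithLp.toLp 2 x, (0 : EuclideanSpace ℝ (Fin m)))) (WithLp.toLp 2 (WithLp.toLp 2 y, 0))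
  have h2 := (PiLp.lipschitzWith_ofLp 2 (fun _ : Fin k => MT)).dist_le_mul (WithLp.toLp 2 x) (WithLp.toLp 2 y)
  rw [NNReal.coe_one, one_mul] at h1 h2
  calc dist (x i) (y i) ≤ dist x y := dist_le_pi_dist x y i
    _ ≤ dist (WithLp.toLp 2 x : PiLp 2 (fun _ : Fin k => MT)) (WithLp.toLp 2 y) := h2
    _ ≤ dist ((WithLp.toLp 2 x : PiLp 2 (fun _ : Fin k => MT)), (0 : EuclideanSpace ℝ (Fin m)))
        (WithLp.toLp 2 y, 0) := le_max_left _ _
    _ ≤ _ := h1

lemma dist_le_of (k m : ℕ) : ∃ C : ℝ, 0 < C ∧ ∀ δ : ℝ, 0 < δ → ∀ x y : Fin k → MT,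
    (∀ i, dist (x i) (y i) ≤ δ) → dist (mk x 0 : MM k m) (mk y 0) ≤ C * δ := by
  obtain ⟨K1, hK1⟩ : ∃ K : NNReal, AntilipschitzWith K
      (@WithLp.ofLp 2 (PiLp 2 (fun _ : Fin k => MT) × EuclideanSpace ℝ (Fin m))) :=
    ⟨_, WithLp.prod_antilipschitzWith_ofLp 2 (PiLp 2 (fun _ : Fin k => MT)) (EuclideanSpace ℝ (Fin m))⟩
  obtain ⟨K2, hK2⟩ : ∃ K : NNReal, AntilipschitzWith K (@WithLp.ofLp 2 (∀ _ : Fin k, MT)) :=
    ⟨_, PiLp.antilipschitzWith_ofLp 2 (fun _ : Fin k => MT)⟩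
  refine ⟨K1 * K2 + 1, by positivity, fun δ hδ x y hxy => ?_⟩
  have h1 := hK1.le_mul_dist
    (WithLp.toLp 2 ((WithLp.toLp 2 x : PiLp 2 (fun _ : Fin k => MT)), (0 : EuclideanSpace ℝ (Fin m))))
    (WithLp.toLp 2 (WithLp.toLp 2 y, 0))
  have h2 := hK2.le_mul_dist (WithLp.toLp 2 x) (WithLp.toLp 2 y)
  have h3 : dist x y ≤ δ := (dist_pi_le_iff hδ.le).2 hxy
  have h4 : dist ((WithLp.toLp 2 x : PiLp 2 (fun _ : Fin k => MT)), (0 : EuclideanSpace ℝ (Fin m)))
        (WithLp.toLp 2 y, 0) = dist (WithLp.toLp 2 x : PiLp 2 (fun _ : Fin k => MT)) (WithLp.toLp 2 y) := by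
    rw [Prod.dist_eq]
    simp
  calc dist (mk x 0 : MM k m) (mk y 0) ≤ K1 * dist ((WithLp.toLp 2 x : PiLp 2 (fun _ : Fin k => MT)),
        (0 : EuclideanSpace ℝ (Fin m))) (WithLp.toLp 2 y, 0) := h1
    _ = K1 * dist (WithLp.toLp 2 x : PiLp 2 (fun _ : Fin k => MT)) (WithLp.toLp 2 y) := by rw [h4]
    _ ≤ K1 * (K2 * dist x y) := mul_le_mul_of_nonneg_left h2 K1.coe_nonneg
    _ ≤ K1 * (K2 * δ) := by gcongr
    _ ≤ (K1 * K2 + 1) * δ := by nlinarith

/-! ### the diffeomorphism -/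

/-- the product map -/
noncomputable def pr (k m : ℕ) : MM k m ≃ MM k m where
  toFun x := mk (fun i => f (co x i)) ((2 : ℝ) • eu x)
  invFun x := mk (fun i => f.symm (co x i)) ((1 / 2 : ℝ) • eu x)
  left_inv x := by
    show mk (fun i => f.symm (f (co x i))) ((1 / 2 : ℝ) • ((2 : ℝ) • eu x)) = x
    rw [smul_smul]
    norm_num
    exact mk_co_eu x
  right_inv x := by
    show mk (fun i => f (f.symm (co x i))) ((2 : ℝ) • ((1 / 2 : ℝ) • eu x)) = x
    rw [smul_smul]
    norm_num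
    exact mk_co_eu x

lemma co_iter (n : ℕ) (x : MM k m) (i : Fin k) : co ((pr k m)^[n] x) i = f^[n] (co x i) := by
  induction n with
  | zero => rfl
  | succ n ih =>
    rw [Function.iterate_succ_apply', Function.iterate_succ_apply', ← ih]
    rfl

lemma eu_iter (n : ℕ) (x : MM k m) : eu ((pr k m)^[n] x) = (2 : ℝ) ^ n • eu x := by
  induction n with
  | zero => simp
  | succ n ih =>
    rw [Function.iterate_succ_apply']
    show (2 : ℝ) • eu ((pr k m)^[n] x) = _
    rw [ih, smul_smul, pow_succ']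

lemma co_iter' (n : ℕ) (x : MM k m) (i : Fin k) : co ((pr k m).symm^[n] x) i = f.symm^[n] (co x i) := by
  induction n with
  | zero => rfl
  | succ n ih =>
    rw [Function.iterate_succ_apply', Function.iterate_succ_apply', ← ih]
    rfl

lemma eu_iter' (n : ℕ) (x : MM k m) : eu ((pr k m).symm^[n] x) = (1 / 2 : ℝ) ^ n • eu x := by
  induction n with
  | zero => simp
  | succ n ih =>
    rw [Function.iterate_succ_apply']
    show (1 / 2 : ℝ) • eu ((pr k m).symm^[n] x) = _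
    rw [ih, smul_smul, pow_succ']

lemma iter_mk (n : ℕ) (x : Fin k → MT) : (pr k m)^[n] (mk x 0) = mk (fun i => f^[n] (x i)) 0 := by
  rw [← mk_co_eu ((pr k m)^[n] (mk x 0))]
  congr 1
  · funext i
    rw [co_iter]
    rfl
  · rw [eu_iter]
    simp

lemma iter_mk' (n : ℕ) (x : Fin k → MT) : (pr k m).symm^[n] (mk x 0) = mk (fun i => f.symm^[n] (x i)) 0 := by
  rw [← mk_co_eu ((pr k m).symm^[n] (mk x 0))]
  congr 1
  · funext i
    rw [co_iter']
    rfl
  · rw [eu_iter']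
    simp

/-! ### lifts -/

/-- auxiliary form of the cover -/
abbrev Cov0 (k m : ℕ) := WithLp 2 (PiLp 2 (fun _ : Fin k => CT) × EuclideanSpace ℝ (Fin m))

/-- the coordinates of the cover -/
noncomputable def P (k m : ℕ) (i : Fin k) : Cov0 k m →L[ℝ] CT :=
  (PiLp.proj 2 (fun _ : Fin k => CT) i).comp
    (WithLp.fstL 2 ℝ (PiLp 2 (fun _ : Fin k => CT)) (EuclideanSpace ℝ (Fin m)))

/-- the last coordinate of the cover -/
noncomputable def Q (k m : ℕ) : Cov0 k m →L[ℝ] EuclideanSpace ℝ (Fin m) :=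
  WithLp.sndL 2 ℝ (PiLp 2 (fun _ : Fin k => CT)) (EuclideanSpace ℝ (Fin m))

/-- the point of the cover with given coordinates -/
def mkV (x : Fin k → CT) (y : EuclideanSpace ℝ (Fin m)) : Cov0 k m := WithLp.toLp 2 (WithLp.toLp 2 x, y)

/-- the lift of the product map -/
noncomputable def lift (F : CT → CT) (c : ℝ) (q : Cov0 k m) : Cov0 k m :=
  mkV (fun i => F (P k m i q)) (c • Q k m q)

lemma norm_dec (w : Cov0 k m) : ‖w‖ ^ 2 = ∑ i, ‖P k m i w‖ ^ 2 + ‖Q k m w‖ ^ 2 := by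
  rw [WithLp.prod_norm_sq_eq_of_L2, PiLp.norm_sq_eq_of_L2]
  rfl

lemma smooth_lift {F : CT → CT} (c : ℝ) (hF : ContDiff ℝ ∞ F) :
    ContDiff ℝ ∞ (lift F c : Cov0 k m → Cov0 k m) := by
  have h1 : ContDiff ℝ ∞ (fun q : Cov0 k m => fun i => F (P k m i q)) :=
    contDiff_pi.2 fun i => hF.comp (P k m i).contDiff
  have h2 : ContDiff ℝ ∞ (fun q : Cov0 k m => c • Q k m q) := (Q k m).contDiff.const_smul c
  exact WithLp.contDiff_toLp.comp (ContDiff.prodMk (PiLp.contDiff_toLp.comp h1) h2)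

/-- auxiliary form of the covering map -/
noncomputable def proj0 (q : Cov0 k m) : MM k m := mk (fun i => projT (P k m i q)) (Q k m q)

lemma lift_F : IsLift (V := Cov0 k m) proj0 (lift F 2) (pr k m) := by
  refine ⟨smooth_lift 2 F_smooth, fun q => ?_⟩
  show mk (fun i => f (projT (P k m i q))) ((2 : ℝ) • Q k m q) = mk (fun i => projT (F (P k m i q))) ((2 : ℝ) • Q k m q)
  congr 1
  funext i
  exact f_proj _

lemma lift_G : IsLift (V := Cov0 k m) proj0 (lift G (1 / 2)) (pr k m).symm := by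
  refine ⟨smooth_lift (1 / 2) G_smooth, fun q => ?_⟩
  show mk (fun i => f.symm (projT (P k m i q))) ((1 / 2 : ℝ) • Q k m q) =
    mk (fun i => projT (G (P k m i q))) ((1 / 2 : ℝ) • Q k m q)
  congr 1
  funext i
  exact fs_proj _

/-- the basic set -/
def LL' (k m : ℕ) : Set (MM k m) := pw (fun x => (mk x 0 : MM k m)) Lam

lemma co_mem {x : MM k m} (h : x ∈ LL' k m) (i : Fin k) : co x i ∈ Lam := by
  obtain ⟨y, hy, rfl⟩ := h
  exact hy i

lemma hypMap {q : CT} (hq : projT q ∈ Lam) : IsHypMap (fderiv ℝ F q) Es Eu :=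
  ⟨congrArg SetLike.coe (Es_map hq), congrArg SetLike.coe (Eu_map hq),
    fun x hx => ((hyp hq).1 x hx).2, fun x hx => ((hyp hq).2 x hx).2⟩

lemma hyp0 : IsHyp (V := Cov0 k m) proj0 (pr k m) (LL' k m) := by
  refine ⟨lift F 2, lift_F, EsA (P k m) (Q k m) Es, EuA (P k m) Eu,
    compl_abs (P k m) (Q k m) mkV (fun _ _ _ => rfl) (fun _ _ => rfl) norm_dec EsEu, fun q hq => ?_⟩
  refine hyp_abs (P k m) (Q k m) mkV (fun _ _ _ => rfl) (fun _ _ => rfl) norm_dec
    ((smooth_lift 2 F_smooth).differentiable (by simp)) (F_smooth.differentiable (by simp))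
    (fun _ _ => rfl) (fun _ => rfl) q (fun i => hypMap ?_)
  exact co_mem hq i

lemma compact' : IsCompact (LL' k m) := by
  have hc : IsCompact {x : Fin k → MT | ∀ i, x i ∈ Lam} := by
    have := isCompact_univ_pi (fun _ : Fin k => Lam_compact)
    convert this using 1
    ext x
    simp
  exact hc.image continuous_mk0

lemma image' : pr k m '' LL' k m = LL' k m := by
  have hpr : ∀ x : Fin k → MT, pr k m (mk x 0) = mk (fun i => f (x i)) 0 := fun x => iter_mk 1 x
  ext z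
  constructor
  · rintro ⟨_, ⟨x, hx, rfl⟩, rfl⟩
    exact ⟨fun i => f (x i), fun i => f_Lam ▸ mem_image_of_mem f (hx i), (hpr x).symm⟩
  · rintro ⟨x, hx, rfl⟩
    have : ∀ i, ∃ y ∈ Lam, f y = x i := fun i => by
      have := hx i
      rw [← f_Lam] at this
      exact this
    choose y hy hfy using this
    refine ⟨mk y 0, ⟨y, hy, rfl⟩, ?_⟩
    rw [hpr]
    congr 1
    funext i
    exact hfy i

lemma locmax' : IsLocallyMaximal (pr k m) (LL' k m) := by
  obtain ⟨U, hU, hΛU, hrep⟩ := locmax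
  refine ⟨{x | (∀ i, co x i ∈ U) ∧ ‖eu x‖ < 1}, ?_, ?_, ?_⟩
  · refine IsOpen.inter ?_ (isOpen_lt continuous_eu.norm continuous_const)
    have : {x : MM k m | ∀ i, co x i ∈ U} = ⋂ i, (fun x => co x i) ⁻¹' U := by
      ext x
      simp
    show IsOpen {x : MM k m | ∀ i, co x i ∈ U}
    rw [this]
    exact isOpen_iInter_of_finite fun i => hU.preimage (continuous_co i)
  · rintro _ ⟨x, hx, rfl⟩
    exact ⟨fun i => hΛU (hx i), by simp⟩
  · ext z
    constructor
    · rintro ⟨x, hx, rfl⟩ n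
      have h := fun i => by
        have := hx i
        rw [hrep] at this
        exact this n
      refine ⟨⟨fun i => ?_, ?_⟩, ⟨fun i => ?_, ?_⟩⟩
      · rw [co_iter]
        exact (h i).1
      · rw [eu_iter]
        simp
      · rw [co_iter']
        exact (h i).2
      · rw [eu_iter']
        simp
    · intro h3
      have hz : eu z = 0 := by
        by_contra hne0
        have hpos : 0 < ‖eu z‖ := norm_pos_iff.2 hne0
        obtain ⟨n, hn⟩ := pow_unbounded_of_one_lt (1 / ‖eu z‖) (one_lt_two (α := ℝ))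
        have h4 := (h3 n).1.2
        rw [eu_iter, norm_smul, norm_pow, Real.norm_eq_abs, abs_two] at h4
        rw [div_lt_iff₀ hpos] at hn
        linarith
      refine ⟨co z, fun i => ?_, ?_⟩
      · rw [hrep]
        intro n
        have h5 := (h3 n).1.1 i
        have h6 := (h3 n).2.1 i
        rw [co_iter] at h5
        rw [co_iter'] at h6
        exact ⟨h5, h6⟩
      · show mk (co z) 0 = z
        rw [← hz]
        exact mk_co_eu z

lemma exists_coord {x : MM k m} (h : x ∈ LL' k m) : ∃ s t : Fin k → ℕ → S, x = mk (fun i => Th (s i, t i)) 0 := by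
  obtain ⟨y, hy, rfl⟩ := h
  choose st hst using hy
  refine ⟨fun i => (st i).1, fun i => (st i).2, ?_⟩
  show mk y 0 = _
  congr 1
  funext i
  exact (hst i).symm

lemma mem_of_coord (s t : Fin k → ℕ → S) : (mk (fun i => Th (s i, t i)) 0 : MM k m) ∈ LL' k m :=
  ⟨_, fun i => ⟨_, rfl⟩, rfl⟩

lemma transitive' : IsTransitiveOn (pr k m) (LL' k m) := by
  rintro U V hU hV ⟨x, hxU, hxL⟩ ⟨y, hyV, hyL⟩
  obtain ⟨s, t, rfl⟩ := exists_coord hxL
  obtain ⟨s', t', rfl⟩ := exists_coord hyL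
  have e1 : Tendsto (fun N : ℕ => (mk (fun i => Th (mix N (s i) (t' i) (s' i), t i)) 0 : MM k m)) atTop
      (𝓝 (mk (fun i => Th (s i, t i)) 0)) := by
    apply (continuous_mk0.tendsto _).comp
    rw [tendsto_pi_nhds]
    intro i
    apply (Th_cont.tendsto _).comp
    apply Tendsto.prodMk_nhds _ tendsto_const_nhds
    rw [tendsto_pi_nhds]
    intro l
    apply tendsto_const_nhds.congr'
    filter_upwards [eventually_gt_atTop l] with N hN
    unfold mix
    rw [if_pos hN]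
  have e2 : Tendsto (fun N : ℕ => (mk (fun i => Th (s' i, push (2*N) (mix N (s i) (t' i) (s' i)) (t i))) 0 : MM k m))
      atTop (𝓝 (mk (fun i => Th (s' i, t' i)) 0)) := by
    apply (continuous_mk0.tendsto _).comp
    rw [tendsto_pi_nhds]
    intro i
    apply (Th_cont.tendsto _).comp
    apply Tendsto.prodMk_nhds tendsto_const_nhds
    rw [tendsto_pi_nhds]
    intro l
    apply tendsto_const_nhds.congr'
    filter_upwards [eventually_gt_atTop l] with N hN
    unfold push mix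
    rw [if_pos (by omega), if_neg (by omega), if_pos (by omega)]
    congr 1; omega
  have e3 := e1.eventually (hU.mem_nhds hxU)
  have e4 := e2.eventually (hV.mem_nhds hyV)
  obtain ⟨N, h5, h6⟩ := (e3.and e4).exists
  refine ⟨2*N, _, ⟨_, ⟨h5, mem_of_coord _ _⟩, rfl⟩, ?_⟩
  rw [iter_mk]
  have h7 : ∀ i, f^[2*N] (Th (mix N (s i) (t' i) (s' i), t i)) =
      Th (s' i, push (2*N) (mix N (s i) (t' i) (s' i)) (t i)) := by
    intro i
    rw [f_itT]
    congr 2
    funext l
    rw [sh_it]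
    unfold mix
    rw [if_neg (by omega), if_neg (by omega)]
    congr 1; omega
  simp only [h7]
  exact h6

/-- **The product is a basic set.** -/
theorem basic0 : IsBasic (V := Cov0 k m) proj0 (pr k m) (LL' k m) := by
  refine ⟨?_, compact', image', hyp0, locmax', transitive'⟩
  obtain ⟨x, hx⟩ := Lam_ne
  exact ⟨_, fun _ => x, fun _ => hx, rfl⟩

theorem diffeo : IsDiffeo (projOf k m v1 v2) (pr k m) :=
  ⟨⟨lift F 2, lift_F (k := k) (m := m)⟩, ⟨lift G (1 / 2), lift_G (k := k) (m := m)⟩⟩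

theorem basic : IsBasic (projOf k m v1 v2) (pr k m) (LL' k m) := basic0 (k := k) (m := m)

/-! ### dimensions -/

theorem dims_whole {a b : ℝ} (ha : al1 < a) (hb : b < be1) :
    lowerBoxDim (LL' k m) ≤ ((k * a : ℝ) : EReal) ∧ ((k * b : ℝ) : EReal) ≤ upperBoxDim (LL' k m) := by
  obtain ⟨C, hC, hC2⟩ := dist_le_of k m
  obtain ⟨s0⟩ : Nonempty (ℕ → S) := ⟨fun _ => Sum.inr 0⟩
  exact dimsZ (fun x => (mk x 0 : MM k m)) hC dist_ge hC2 (Z := LL' k m) Subset.rfl (s := fun _ => s0)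
    (t := fun _ => s0) (N := 0) (fun x hx => ⟨x, fun i => cyl_sub _ _ _ (hx i), rfl⟩) ha hb

theorem dims_slice {a b : ℝ} (ha : al1 < a) (hb : b < be1) {x : MM k m} (hx : x ∈ LL' k m) {ε : ℝ} (hε : 0 < ε) :
    lowerBoxDim (LL' k m ∩ unstable (pr k m) ε x) ≤ ((k * a : ℝ) : EReal) ∧
      ((k * b : ℝ) : EReal) ≤ upperBoxDim (LL' k m ∩ unstable (pr k m) ε x) := by
  obtain ⟨C, hC, hC2⟩ := dist_le_of k m
  obtain ⟨s, t, rfl⟩ := exists_coord hx
  have h1 := fun i => cyl_in (s i) (t i) (show 0 < ε / C by positivity)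
  choose N hN using h1
  refine dimsZ (fun x => (mk x 0 : MM k m)) hC dist_ge hC2 (Z := LL' k m ∩ unstable (pr k m) ε _)
    inter_subset_left (s := s) (t := t) (N := Finset.univ.sup N) (fun y hy => ⟨⟨y, fun i => cyl_sub _ _ _ (hy i), rfl⟩,
      fun n => ?_⟩) ha hb
  rw [iter_mk', iter_mk']
  have he : C * (ε / C) = ε := by field_simp
  rw [← he]
  refine hC2 _ (by positivity) _ _ fun i => ?_
  obtain ⟨σ, hσ, hyσ⟩ := hy i
  rw [hyσ]
  exact hN i σ (fun l hl => hσ l (lt_of_lt_of_le hl (Finset.le_sup (f := N) (Finset.mem_univ i)))) n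

end Pool.Agent.Y912.BS
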